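import Pool.Agent.Helper7.U.Fam2

/-!
Sub-families: factors of rank two and of CM type inside a larger family, with the symmetries of a
form on the larger family; weights and their relations.
-/

namespace Pool.Agent.Helper28.W

open Module NumberField Pool.Agent.Helper7

set_option linter.unusedSectionVars false

section family

variable {I : Type} [Fintype I] [DecidableEq I] (n : I → ℕ)
  {κ : I → Type} [∀ i, Fintype (κ i)] [∀ i, DecidableEq (κ i)] {ϖ : ℂ}
  (P : ∀ i, PData (κ i) ϖ)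
  {k : ℕ} (α : MultilinearMap ℂ (fun _ : Fin (2 * k) => HW κ n) ℂ)
  {J : Type} [Fintype J] [DecidableEq J] (ι : J → I)
  {K : J → Type} [∀ j, Field (K j)] [∀ j, NumberField (K j)]
  (F : ∀ j, FT (P (ι j)) (K j))

include F in
lemma commT {X : GG κ} (hX : IsInv n P α X) (i : J) : (F i).Comm (X.1 (ι i)) :=
  fun x v => hX.comm (ι i) (ι i) _ ((F i).hρ x) v

/-- normalised weights -/
noncomputable def wtJ (t : Σ i, (K i →+* ℂ)) (X : GG κ) : ℂ :=
  if (F t.1).isLeft then ((F t.1).mat t.2 (X.1 (ι t.1))).trace / 2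
  else (F t.1).mat t.2 (X.1 (ι t.1)) 0 0

lemma wtJ_conj (t : Σ i, (K i →+* ℂ)) (X : GG κ) (hX : IsInv n P α X) :
    wtJ P ι F t X + wtJ P ι F (conjT t) X = X.2 := by
  obtain ⟨i, σ⟩ := t
  by_cases h : (F i).isLeft
  · rw [wtJ, wtJ, if_pos h, if_pos (show (F (conjT ⟨i, σ⟩ : Σ i, (K i →+* ℂ)).1).isLeft from h)]
    have h1 := (F i).trcj h (X.1 (ι i)) (commT n P α ι F hX i) X.2 (hX.pol (ι i)) σ
    show ((F i).mat σ (X.1 (ι i))).trace / 2 +
      ((F i).mat (ComplexEmbedding.conjugate σ) (X.1 (ι i))).trace / 2 = X.2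
    linear_combination h1 / 2
  · rw [wtJ, wtJ, if_neg h, if_neg (show ¬ (F (conjT ⟨i, σ⟩ : Σ i, (K i →+* ℂ)).1).isLeft from h)]
    exact (F i).char_eq h (X.1 (ι i)) (commT n P α ι F hX i) X.2 (hX.pol (ι i)) σ

lemma wtJ_rat (i : J) (X : GG κ) (hX : IsInv n P α X) (hr : IsRatl P X) :
    ∃ x : K i, ∀ σ : K i →+* ℂ, wtJ P ι F ⟨i, σ⟩ X = σ x := by
  obtain ⟨m, hm⟩ := (F i).exists_matK (X.1 (ι i)) (commT n P α ι F hX i) (hr.1 (ι i))
  by_cases h : (F i).isLeft
  · refine ⟨(m 0 0 + m 1 1) / 2, fun σ => ?_⟩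
    rw [wtJ, if_pos h, Matrix.trace_fin_two]
    show ((F i).mat σ (X.1 (ι i)) 0 0 + (F i).mat σ (X.1 (ι i)) 1 1) / 2 = _
    rw [hm σ 0 0 (Or.inl h), hm σ 1 1 (Or.inl h), map_div₀, map_add, map_ofNat]
  · refine ⟨m 0 0, fun σ => ?_⟩
    rw [wtJ, if_neg h]
    exact hm σ 0 0 (Or.inr rfl)

/-- relations between the weights -/
def relJ : Submodule ℚ ((Σ i, (K i →+* ℂ)) → ℚ) where
  carrier := {u | (∀ t, u (conjT t) = - u t) ∧
    ∀ X, IsInv n P α X → IsRatl P X → ∑ t, (u t : ℂ) * wtJ P ι F t X = 0}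
  zero_mem' := ⟨fun t => by simp, fun X _ _ => by simp⟩
  add_mem' := by
    rintro u v ⟨hu1, hu2⟩ ⟨hv1, hv2⟩
    refine ⟨fun t => by rw [Pi.add_apply, Pi.add_apply, hu1, hv1]; ring, fun X hX hr => ?_⟩
    simp only [Pi.add_apply, Rat.cast_add, add_mul, Finset.sum_add_distrib]
    rw [hu2 X hX hr, hv2 X hX hr, add_zero]
  smul_mem' := by
    rintro c u ⟨hu1, hu2⟩
    refine ⟨fun t => by rw [Pi.smul_apply, Pi.smul_apply, hu1]; simp, fun X hX hr => ?_⟩
    simp only [Pi.smul_apply, smul_eq_mul, Rat.cast_mul, mul_assoc, ← Finset.mul_sum]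
    rw [hu2 X hX hr, mul_zero]

lemma mem_relJ (u : (Σ i, (K i →+* ℂ)) → ℚ) : u ∈ relJ n P α ι F ↔
    (∀ t, u (conjT t) = - u t) ∧
    ∀ X, IsInv n P α X → IsRatl P X → ∑ t, (u t : ℂ) * wtJ P ι F t X = 0 := Iff.rfl

lemma relJ_stable (τ : ℂ ≃+* ℂ) (u : (Σ i, (K i →+* ℂ)) → ℚ) (hu : u ∈ relJ n P α ι F) :
    (fun t => u (actT τ t)) ∈ relJ n P α ι F := by
  rw [mem_relJ] at hu ⊢
  refine ⟨fun t => ?_, fun X hX hr => ?_⟩
  · show u (actT τ (conjT t)) = - u (actT τ t)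
    rw [actT_conjU (fun j => P (ι j)) F, hu.1]
  · have h1 : ∀ t : Σ i, (K i →+* ℂ), τ (wtJ P ι F t X) = wtJ P ι F (actT τ t) X := by
      rintro ⟨i, σ⟩
      obtain ⟨x, hx⟩ := wtJ_rat n P α ι F i X hX hr
      show τ (wtJ P ι F ⟨i, σ⟩ X) = wtJ P ι F ⟨i, (τ : ℂ →+* ℂ).comp σ⟩ X
      rw [hx, hx]
      rfl
    have h2 := hu.2 X hX hr
    rw [← Fintype.sum_equiv (actT τ) (fun t => (u (actT τ t) : ℂ) * wtJ P ι F (actT τ t) X) _
      (fun _ => rfl)] at h2
    simp only [← h1] at h2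
    have h3 : τ (∑ t, (u (actT τ t) : ℂ) * wtJ P ι F t X) = 0 := by
      rw [map_sum, ← h2]
      refine Finset.sum_congr rfl fun t _ => ?_
      rw [map_mul, map_ratCast]
    exact (map_eq_zero τ).mp h3

variable (hϖ : ϖ ≠ 0)
  (hB : ∀ v : Fin (2 * k) → HW κ n, (∀ r, IsRatP n P (v r)) → ∃ q : ℚ, α v = ϖ ^ k * q)
  (hA : ∀ v : Fin (2 * k) → HW κ n, (∀ r i m j, IsAlgebraic ℚ (v r i m j)) →
      IsAlgebraic ℚ (α v))

include hϖ hB hA in
lemma relJ_eq_zero (hMF : MF K)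
    (hfull : ∀ i, (F i).isLeft → (∃ σ : K i →+* ℂ, ComplexEmbedding.conjugate σ ≠ σ) →
      ∀ f, IsDRB (P (ι i)) (P (ι i)) f → ∃ x, ∀ v, f v = (F i).ρ x v)
    (u : (Σ i, (K i →+* ℂ)) → ℚ) (hu : u ∈ relJ n P α ι F) (t : Σ i, (K i →+* ℂ))
    (ht : conjT t ≠ t) : u t = 0 := by
  classical
  by_contra hne
  obtain ⟨i, σ₀⟩ := t
  have hσ₀ : ComplexEmbedding.conjugate σ₀ ≠ σ₀ := by
    intro h
    apply ht
    show (⟨i, ComplexEmbedding.conjugate σ₀⟩ : Σ i, (K i →+* ℂ)) = ⟨i, σ₀⟩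
    rw [h]
  have hall := hMF (relJ n P α ι F) (fun u hu => hu.1) (fun τ u hu => relJ_stable n P α ι F τ u hu)
    i ⟨u, hu, σ₀, hne⟩
  -- all weights at `i` are equal
  have hwt : ∀ σ : K i →+* ℂ, ∀ X, IsInv n P α X → IsRatl P X → wtJ P ι F ⟨i, σ⟩ X = X.2 / 2 := by
    intro σ X hX hr
    let w : (Σ i, (K i →+* ℂ)) → ℚ := fun t =>
      (if t = ⟨i, σ⟩ then 1 else 0) - (if conjT t = ⟨i, σ⟩ then 1 else 0)
    have hw := hall w (fun t => by
      simp only [w, conjT_conjT]; ring) (fun t htne => by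
      have h1 : t ≠ ⟨i, σ⟩ := fun h => htne (by rw [h])
      have h2 : conjT t ≠ ⟨i, σ⟩ := fun h => htne (by
        have h3 : (conjT t).1 = i := by rw [h]
        exact h3)
      simp only [w, if_neg h1, if_neg h2, sub_zero])
    have h1 := hw.2 X hX hr
    have h2 : ∑ t, ((w t : ℚ) : ℂ) * wtJ P ι F t X =
        wtJ P ι F ⟨i, σ⟩ X - wtJ P ι F (conjT ⟨i, σ⟩) X := by
      have h3 : ∀ t, ((w t : ℚ) : ℂ) * wtJ P ι F t X = (if t = ⟨i, σ⟩ then wtJ P ι F t X else 0) -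
          (if t = conjT ⟨i, σ⟩ then wtJ P ι F t X else 0) := by
        intro t
        have h4 : (conjT t = ⟨i, σ⟩) ↔ (t = conjT ⟨i, σ⟩) :=
          ⟨fun h => by rw [← h, conjT_conjT], fun h => by rw [h, conjT_conjT]⟩
        simp only [w, h4]
        split_ifs <;> simp
      simp only [h3]
      rw [Finset.sum_sub_distrib, Finset.sum_ite_eq' Finset.univ, Finset.sum_ite_eq' Finset.univ]
      simp
    rw [h2] at h1
    have h3 := wtJ_conj n P α ι F ⟨i, σ⟩ X hX
    linear_combination h1 / 2 + h3 / 2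
  rcases hF : F i with F' | F'
  · -- rank two
    have hl : (F i).isLeft := by rw [hF]; rfl
    have htr : ∀ X, IsInv n P α X → ((F i).mat σ₀ (X.1 (ι i))).trace = X.2 := by
      intro X hX
      have h1 := Pool.Agent.Helper7.lin_of_rat n P α hϖ hB
        ((Matrix.traceLinearMap (Fin 2) ℂ ℂ) ∘ₗ ((F i).mat σ₀) ∘ₗ (LinearMap.proj (ι i)) ∘ₗ
          (LinearMap.fst ℂ ((i : I) → Module.End ℂ (κ i → ℂ)) ℂ) -
          (LinearMap.snd ℂ ((i : I) → Module.End ℂ (κ i → ℂ)) ℂ)) (fun X hX hr => by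
          have h2 := hwt σ₀ X hX hr
          rw [wtJ, if_pos hl] at h2
          show ((F i).mat σ₀ (X.1 (ι i))).trace - X.2 = 0
          linear_combination 2 * h2) X hX
      exact sub_eq_zero.mp h1
    obtain ⟨m, c, f, hf, hβ⟩ := bilin_of_inv n P α hϖ hB hA (ι i) (ι i)
      ((LinearMap.mul ℂ ℂ).compl₁₂ ((F i).co σ₀ 0) ((F i).co σ₀ 1) -
        (LinearMap.mul ℂ ℂ).compl₁₂ ((F i).co σ₀ 1) ((F i).co σ₀ 0)) (by
        intro X hX u v
        have h1 := htr X hX
        rw [Matrix.trace_fin_two] at h1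
        simp only [LinearMap.sub_apply, LinearMap.compl₁₂_apply, LinearMap.mul_apply']
        rw [(F i).co_act (commT n P α ι F hX i) σ₀ 0 u (Or.inl hl),
          (F i).co_act (commT n P α ι F hX i) σ₀ 1 u (Or.inl hl),
          (F i).co_act (commT n P α ι F hX i) σ₀ 0 v (Or.inl hl),
          (F i).co_act (commT n P α ι F hX i) σ₀ 1 v (Or.inl hl),
          Fin.sum_univ_two, Fin.sum_univ_two, Fin.sum_univ_two, Fin.sum_univ_two, ← h1]
        ring)
    have h1 := hβ ((F i).e σ₀ 0) ((F i).e σ₀ 1)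
    simp only [LinearMap.sub_apply, LinearMap.compl₁₂_apply, LinearMap.mul_apply'] at h1
    rw [(F i).co_e _ _ _ _ (Or.inl hl), (F i).co_e _ _ _ _ (Or.inl hl),
      (F i).co_e _ _ _ _ (Or.inl hl), if_pos ⟨rfl, rfl⟩, if_pos ⟨rfl, rfl⟩,
      if_neg (by simp), zero_mul, one_mul, sub_zero] at h1
    have h2 : ∀ l, (P (ι i)).ψ (f l ((F i).e σ₀ 0)) ((F i).e σ₀ 1) = 0 := by
      intro l
      obtain ⟨x, hx⟩ := hfull i hl ⟨σ₀, hσ₀⟩ (f l) (hf l)
      rw [hx, (F i).rho_e, map_smul, LinearMap.smul_apply,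
        (F i).psi_e _ _ _ _ (Ne.symm hσ₀), smul_zero]
    rw [Finset.sum_eq_zero (fun l _ => by rw [h2, mul_zero])] at h1
    exact one_ne_zero h1
  · -- CM type
    have hl : ¬ (F i).isLeft := by rw [hF]; simp
    have hscal : ∀ X, IsInv n P α X → IsRatl P X → ∀ v, X.1 (ι i) v = (X.2 / 2) • v := by
      intro X hX hr v
      have hcomm : F'.1.Comm (X.1 (ι i)) := fun x v => hX.comm (ι i) (ι i) _ (F'.1.hρ x) v
      have h1 := F'.1.ext_e (X.1 (ι i)) ((X.2 / 2) • (LinearMap.id : Module.End ℂ (κ (ι i) → ℂ)))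
        (fun σ j => ?_) v
      · rw [h1]; rfl
      · have hfin : ∀ j : Fin 2, j = 0 ∨ j = 1 := by
          intro j; fin_cases j <;> simp
        rcases hfin j with hj | hj
        · subst hj
          rw [hcomm.act, Fin.sum_univ_two, F'.1.e_one F'.2, smul_zero, add_zero]
          have h2 := hwt σ X hX hr
          have h3 : wtJ P ι F ⟨i, σ⟩ X = F'.1.mat σ (X.1 (ι i)) 0 0 := by
            rw [wtJ, if_neg hl]
            show (F i).mat σ (X.1 (ι i)) 0 0 = _
            rw [hF]; rfl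
          rw [← h3, h2]; rfl
        · subst hj
          rw [F'.1.e_one F'.2, map_zero, map_zero]
    -- a rational line is spanned by an algebraic vector
    have h1 := algebraic_of_stable n P α hϖ hB hA (ι i) {F'.1.lf.lam 0}
      (fun v hv => by rw [Set.mem_singleton_iff.mp hv]; exact F'.1.lf.lam_rat 0)
      (fun Y hY hYr v hv => by
        rw [hscal Y hY hYr]
        exact Submodule.smul_mem _ _ (Submodule.subset_span hv))
    have h2 : F'.1.lf.lam 0 ∈ Submodule.span ℂ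
        {v | (∀ j, IsAlgebraic ℚ (v j)) ∧ v ∈ Submodule.span ℂ {F'.1.lf.lam 0}} :=
      h1 (Submodule.subset_span rfl)
    obtain ⟨v, ⟨hv1, hv2⟩, hv0⟩ : ∃ v ∈ {v | (∀ j, IsAlgebraic ℚ (v j)) ∧
        v ∈ Submodule.span ℂ {F'.1.lf.lam 0}}, v ≠ 0 := by
      by_contra hcon
      push Not at hcon
      have h3 : Submodule.span ℂ {v | (∀ j, IsAlgebraic ℚ (v j)) ∧
          v ∈ Submodule.span ℂ {F'.1.lf.lam 0}} ≤ ⊥ := by
        rw [Submodule.span_le]
        intro v hv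
        rw [SetLike.mem_coe, Submodule.mem_bot]
        exact hcon v hv
      exact F'.1.lam_ne ((Submodule.mem_bot ℂ).mp (h3 h2))
    obtain ⟨c, hc⟩ := Submodule.mem_span_singleton.mp hv2
    have hc0 : c ≠ 0 := by
      rintro rfl
      rw [zero_smul] at hc
      exact hv0 hc.symm
    refine F'.1.hT F'.2 _ (F'.1.lf.lam_rat 0) F'.1.lam_ne ⟨c⁻¹, v, hv1, ?_⟩
    rw [← hc, smul_smul, inv_mul_cancel₀ hc0, one_smul]

include hϖ hB hA in
lemma balanceJ (hMF : MF K)
    (hfull : ∀ i, (F i).isLeft → (∃ σ : K i →+* ℂ, ComplexEmbedding.conjugate σ ≠ σ) →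
      ∀ f, IsDRB (P (ι i)) (P (ι i)) f → ∃ x, ∀ v, f v = (F i).ρ x v)
    (k' : ℕ) (p : Fin (2 * k') → (Σ i, (K i →+* ℂ)))
    (hp : ∀ X, IsInv n P α X → ∑ r, wtJ P ι F (p r) X = k' * X.2) (t : Σ i, (K i →+* ℂ))
    (ht : conjT t ≠ t) :
    (open Classical in (Finset.univ.filter (fun r => p r = t)).card =
      (Finset.univ.filter (fun r => p r = conjT t)).card) := by
  classical
  let u : (Σ i, (K i →+* ℂ)) → ℚ := fun t =>
    ((Finset.univ.filter (fun r => p r = t)).card : ℚ) -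
      (Finset.univ.filter (fun r => p r = conjT t)).card
  have hu : u ∈ relJ n P α ι F := by
    rw [mem_relJ]
    refine ⟨fun t => ?_, fun X hX _ => ?_⟩
    · simp only [u, conjT_conjT]; ring
    · have h1 : ∀ (g : (Σ i, (K i →+* ℂ)) → ℂ),
          ∑ t, ((Finset.univ.filter (fun r => p r = t)).card : ℂ) * g t = ∑ r, g (p r) := by
        intro g
        have h2 : ∀ t, ((Finset.univ.filter (fun r => p r = t)).card : ℂ) * g t =
            ∑ r, (if p r = t then g t else 0) := by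
          intro t
          rw [Finset.card_filter]
          push_cast
          rw [Finset.sum_mul]
          exact Finset.sum_congr rfl fun r _ => by split_ifs <;> simp
        simp only [h2]
        rw [Finset.sum_comm]
        refine Finset.sum_congr rfl fun r _ => ?_
        rw [Finset.sum_ite_eq Finset.univ]
        simp
      let cE : (Σ i, (K i →+* ℂ)) ≃ (Σ i, (K i →+* ℂ)) :=
        ⟨conjT, conjT, conjT_conjT, conjT_conjT⟩
      have h3 : ∑ t, ((Finset.univ.filter (fun r => p r = conjT t)).card : ℂ) * wtJ P ι F t X =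
          ∑ r, wtJ P ι F (conjT (p r)) X := by
        rw [← h1 (fun t => wtJ P ι F (conjT t) X)]
        refine Fintype.sum_equiv cE _ _ fun t => ?_
        show _ = ((Finset.univ.filter (fun r => p r = conjT t)).card : ℂ) *
          wtJ P ι F (conjT (conjT t)) X
        rw [conjT_conjT]
      have h4 : ∑ r, wtJ P ι F (conjT (p r)) X = k' * X.2 := by
        have h5 : ∑ r, (wtJ P ι F (p r) X + wtJ P ι F (conjT (p r)) X) =
            ∑ _r : Fin (2 * k'), X.2 :=
          Finset.sum_congr rfl fun r _ => wtJ_conj n P α ι F (p r) X hX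
        rw [Finset.sum_add_distrib, hp X hX, Finset.sum_const, Finset.card_univ,
          Fintype.card_fin, nsmul_eq_mul] at h5
        push_cast at h5
        linear_combination h5
      simp only [u, Rat.cast_sub, Rat.cast_natCast, sub_mul, Finset.sum_sub_distrib]
      rw [h1 (fun t => wtJ P ι F t X), h3, h4, hp X hX, sub_self]
  have h1 := relJ_eq_zero n P α ι F hϖ hB hA hMF hfull u hu t ht
  have h2 := sub_eq_zero.mp h1
  exact_mod_cast h2

end family

end Pool.Agent.Helper28.W
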