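import Pool.Agent.Helper28.W.FamJ

/-!
Sub-families: the frames, and the generation by bilinear forms of the multilinear forms on a
sub-family which are invariant under the symmetries of a form on the larger family.
-/

namespace Pool.Agent.Helper28.W

open Module NumberField Pool.Agent.Helper7

section family

variable {I : Type} [Fintype I] [DecidableEq I] (n : I → ℕ)
  {κ : I → Type} [∀ i, Fintype (κ i)] [∀ i, DecidableEq (κ i)] {ϖ : ℂ}
  (P : ∀ i, PData (κ i) ϖ)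
  {k : ℕ} (α : MultilinearMap ℂ (fun _ : Fin (2 * k) => HW κ n) ℂ)
  {J : Type} [Fintype J] [DecidableEq J] (ι : J → I) (n' : J → ℕ)
  {K : J → Type} [∀ j, Field (K j)] [∀ j, NumberField (K j)]
  (F : ∀ j, FT (P (ι j)) (K j))

/-- distinct classes: two places with conjugate normalised representations are equal or complex
conjugate, as soon as the first one is not real -/
def UnLinkedJ : Prop := ∀ (i : J) (σ : K i →+* ℂ) (j : J) (τ : K j →+* ℂ),
  (F i).isLeft → (F j).isLeft → ComplexEmbedding.conjugate σ ≠ σ →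
  ∀ Q : Matrix (Fin 2) (Fin 2) ℂ, Q.det ≠ 0 →
  (∀ X, IsInv n P α X →
    ((F i).mat σ (X.1 (ι i)) - ((((F i).mat σ (X.1 (ι i))).trace - X.2) / 2) • (1 : Matrix _ _ ℂ)) * Q =
    Q * ((F j).mat τ (X.1 (ι j)) -
      ((((F j).mat τ (X.1 (ι j))).trace - X.2) / 2) • (1 : Matrix _ _ ℂ))) →
  (⟨j, τ⟩ : Σ i, (K i →+* ℂ)) = ⟨i, σ⟩ ∨ (⟨j, τ⟩ : Σ i, (K i →+* ℂ)) = conjT ⟨i, σ⟩

variable (hϖ : ϖ ≠ 0)
  (hB : ∀ v : Fin (2 * k) → HW κ n, (∀ r, IsRatP n P (v r)) → ∃ q : ℚ, α v = ϖ ^ k * q)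
  (hA : ∀ v : Fin (2 * k) → HW κ n, (∀ r i m j, IsAlgebraic ℚ (v r i m j)) →
      IsAlgebraic ℚ (α v))

include hϖ hB hA in
lemma sl_surjJ (i : J) (h : (F i).isLeft) (σ : K i →+* ℂ) (Z : Matrix (Fin 2) (Fin 2) ℂ)
    (hZ : Z.trace = 0) : ∃ X, IsInv n P α X ∧ (F i).mat σ (X.1 (ι i)) = Z := by
  generalize F i = G at h ⊢
  cases G with
  | inl F' =>
    obtain ⟨X, hX, hXZ⟩ := UF.sl_surj n P α (ι i) F' hϖ hB hA σ Z hZ
    exact ⟨X, hX, by ext a b; exact hXZ a b⟩
  | inr F' => exact absurd h (by simp)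

open Classical in
/-- the frames of the family -/
noncomputable def preJ (hun : UnLinkedJ n P α ι F) :
    PreFramesC (HW (fun j => κ (ι j)) n') (Σ i, Fin (n' i) × (K i →+* ℂ)) (Σ i, (K i →+* ℂ)) (gSub n P α) where
  pl q := ⟨q.1, q.2.2⟩
  gl t := (F t.1).isLeft
  cj := conjT
  cj_cj := conjT_conjT
  cj_ne := by
    rintro ⟨i, σ⟩ h h'
    exact (F i).conj_ne h σ (sigma_mk_injective (β := fun i => (K i →+* ℂ)) h')
  gl_cj t := Iff.rfl
  e q j := slotL (κ := fun j => κ (ι j)) n' q.1 q.2.1 ((F q.1).e q.2.2 j)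
  co q j := ((F q.1).co q.2.2 j) ∘ₗ prL (κ := fun j => κ (ι j)) n' q.1 q.2.1
  L X := lift n' (fun j => X.1.1 (ι j))
  c := (LinearMap.snd ℂ ((i : I) → Module.End ℂ (κ i → ℂ)) ℂ) ∘ₗ (gSub n P α).subtype
  A t := ((F t.1).mat t.2) ∘ₗ (LinearMap.proj (ι t.1)) ∘ₗ
      (LinearMap.fst ℂ ((i : I) → Module.End ℂ (κ i → ℂ)) ℂ) ∘ₗ (gSub n P α).subtype
  br X Y := ⟨X.1 * Y.1 - Y.1 * X.1, IsInv.bracket n P α X.2 Y.2⟩
  hsum v := by
    conv_lhs => rw [← sum_slot n' v]
    rw [Fintype.sum_sigma]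
    refine Finset.sum_congr rfl fun i _ => ?_
    rw [Fintype.sum_prod_type]
    refine Finset.sum_congr rfl fun m _ => ?_
    conv_lhs => rw [(F i).hsum (v i m)]
    rw [map_sum]
    refine Finset.sum_congr rfl fun σ _ => ?_
    rw [map_sum]
    refine Finset.sum_congr rfl fun j _ => ?_
    rw [map_smul]
    rfl
  co_e := by
    rintro ⟨i, m, σ⟩ j ⟨i', m', σ'⟩ j' h
    show (F i).co σ j (prL (κ := fun j => κ (ι j)) n' i m (slotL (κ := fun j => κ (ι j)) n' i' m' ((F i').e σ' j'))) = _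
    by_cases hi : i = i'
    · subst hi
      by_cases hm : m = m'
      · subst hm
        rw [prL_slotL, (F i).co_e _ _ _ _ h]
        have h1 : ((⟨i, m, σ⟩ : Σ i, Fin (n' i) × (K i →+* ℂ)) = ⟨i, m, σ'⟩ ∧ j = j') ↔
            (σ = σ' ∧ j = j') := by
          constructor
          · rintro ⟨h1, h2⟩
            have h3 := sigma_mk_injective (β := fun i => Fin (n' i) × (K i →+* ℂ)) h1
            exact ⟨(Prod.mk.inj h3).2, h2⟩
          · rintro ⟨rfl, h2⟩; exact ⟨rfl, h2⟩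
        simp only [h1]
      · rw [prL_slotL_ne n' i m' m hm, map_zero, if_neg]
        rintro ⟨h1, -⟩
        have h3 := sigma_mk_injective (β := fun i => Fin (n' i) × (K i →+* ℂ)) h1
        exact hm (Prod.mk.inj h3).1
    · rw [prL_slotL_ne' n' i' i m' m hi, map_zero, if_neg]
      rintro ⟨h1, -⟩
      exact hi (congrArg Sigma.fst h1)
  e_one := by
    rintro ⟨i, m, σ⟩ h
    show slotL (κ := fun j => κ (ι j)) n' i m ((F i).e σ 1) = 0
    rw [(F i).e_one h, map_zero]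
  act := by
    rintro X ⟨i, m, σ⟩ j
    show lift n' (fun j => X.1.1 (ι j)) (slotL (κ := fun j => κ (ι j)) n' i m ((F i).e σ j)) =
      ∑ a, (F i).mat σ (X.1.1 (ι i)) a j • slotL (κ := fun j => κ (ι j)) n' i m ((F i).e σ a)
    rw [lift_slot, (F i).act (commT n P α ι F X.2 i), map_sum]
    exact Finset.sum_congr rfl fun a _ => map_smul _ _ _
  co_act := by
    rintro X ⟨i, m, σ⟩ j v h
    exact (F i).co_act (commT n P α ι F X.2 i) σ j (v i m) h
  trcj := by
    rintro ⟨i, σ⟩ X h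
    exact (F i).trcj h _ (commT n P α ι F X.2 i) _ (IsInv.pol X.2 (ι i)) σ
  cm := by
    rintro ⟨i, σ⟩ X h
    exact ⟨(F i).mat_neg h _ σ, (F i).char_eq h _ (commT n P α ι F X.2 i) _
      (IsInv.pol X.2 (ι i)) σ⟩
  c_br X Y := by
    show (X.1 * Y.1 - Y.1 * X.1).2 = 0
    rw [Prod.snd_sub, Prod.snd_mul, Prod.snd_mul, mul_comm, sub_self]
  hbr := by
    rintro ⟨i, σ⟩ h X Y
    show (F i).mat σ (X.1.1 (ι i) * Y.1.1 (ι i) - Y.1.1 (ι i) * X.1.1 (ι i)) = _
    rw [map_sub, (F i).mat_mul (commT n P α ι F X.2 i) _ h,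
      (F i).mat_mul (commT n P α ι F Y.2 i) _ h]
    rfl
  hlam := by
    rintro ⟨i, σ⟩ h X Y
    show (F i).mat σ (X.1.1 (ι i) * Y.1.1 (ι i) - Y.1.1 (ι i) * X.1.1 (ι i)) 0 0 = 0
    rw [map_sub, Matrix.sub_apply,
      (F i).mat_mul0 (commT n P α ι F X.2 i) (commT n P α ι F Y.2 i) h,
      (F i).mat_mul0 (commT n P α ι F Y.2 i) (commT n P α ι F X.2 i) h, mul_comm, sub_self]
  hsurj := by
    rintro ⟨i, σ⟩ h Z hZ
    obtain ⟨X, hX, hXZ⟩ := sl_surjJ n P α ι F hϖ hB hA i h σ Z hZ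
    exact ⟨⟨X, hX⟩, hXZ⟩
  hun := by
    rintro ⟨i, σ⟩ ⟨j, τ⟩ h hne h' Q hQ hX
    refine hun i σ j τ h h' (fun hc => hne ?_) Q hQ (fun X hX' => ?_)
    · show (⟨i, ComplexEmbedding.conjugate σ⟩ : Σ i, (K i →+* ℂ)) = ⟨i, σ⟩
      rw [hc]
    · have h1 := hX ⟨X, hX'⟩
      rw [nrm_apply, nrm_apply, lamOf_apply, lamOf_apply] at h1
      exact h1
  hcj := by
    rintro ⟨i, σ⟩ h
    refine ⟨((F i).gram σ)⁻¹ * !![0, 1; -1, 0], ?_, fun X => ?_⟩
    · rw [Matrix.det_mul, Matrix.det_fin_two_of]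
      have h1 : ((F i).gram σ)⁻¹.det ≠ 0 := by
        rw [← isUnit_iff_ne_zero]
        exact Matrix.isUnit_nonsing_inv_det _ (isUnit_iff_ne_zero.mpr ((F i).gram_det h σ))
      simpa using h1
    · rw [nrm_apply, nrm_apply, lamOf_apply, lamOf_apply]
      exact (F i).conj_conj h (X.1.1 (ι i)) (commT n P α ι F X.2 i) X.1.2 (IsInv.pol X.2 (ι i)) σ

/-- bilinear forms on the sub-family which are invariant under the symmetries of the form on the
large family -/
def invJ : Set (HW (fun j => κ (ι j)) n' →ₗ[ℂ] HW (fun j => κ (ι j)) n' →ₗ[ℂ] ℂ) :=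
  {β | ∀ X, IsInv n P α X → ∀ u v, β (lift n' (fun j => X.1 (ι j)) u) v +
    β u (lift n' (fun j => X.1 (ι j)) v) = X.2 * β u v}

include F hϖ hB hA in
/-- A multilinear form on a sub-family of factors of rank two and of CM type, which is invariant
under the symmetries of a form on the large family, is generated by bilinear forms. -/
theorem family_fftJ (hMF : MF K)
    (hfull : ∀ i, (F i).isLeft → (∃ σ : K i →+* ℂ, ComplexEmbedding.conjugate σ ≠ σ) →
      ∀ f, IsDRB (P (ι i)) (P (ι i)) f → ∃ x, ∀ v, f v = (F i).ρ x v)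
    (hun : UnLinkedJ n P α ι F) {l : ℕ}
    (Φ : MultilinearMap ℂ (fun _ : Fin (2 * l) => HW (fun j => κ (ι j)) n') ℂ)
    (hΦ : ∀ X, IsInv n P α X →
      actForm (lift n' (fun j => X.1 (ι j))) Φ = ((l : ℂ) * X.2) • Φ) :
    Φ ∈ Submodule.span ℂ
    {M | ∃ (π : Equiv.Perm (Fin (2 * l)))
        (β : Fin l → (HW (fun j => κ (ι j)) n' →ₗ[ℂ] HW (fun j => κ (ι j)) n' →ₗ[ℂ] ℂ)),
      (∀ a, β a ∈ invJ n P α ι n') ∧ M = (prodBilin β).domDomCongr π} := by
  classical
  have h1 := (preJ n P α ι n' F hϖ hB hA hun).toFrames.main_fft Φ (fun X v => by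
    have h2 := hΦ X.1 X.2
    have h3 := congrArg (fun g => g v) h2
    simp only [actForm_apply, _root_.smul_apply, smul_eq_mul] at h3
    exact h3) (by
      intro p _ _ hp t ht
      have hbal := balanceJ n P α ι F hϖ hB hA hMF hfull l
        (fun r => ((preJ n P α ι n' F hϖ hB hA hun).toFrames.pl (p r))) (fun X hX => by
          have h3 := hp ⟨X, hX⟩
          refine Eq.trans (Finset.sum_congr rfl fun r _ => ?_) h3
          obtain ⟨i, m, σ⟩ := p r
          show wtJ P ι F ⟨i, σ⟩ X = _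
          by_cases hl : (F i).isLeft
          · rw [wtJ, if_pos hl]
            refine Eq.trans ?_ (if_pos (show (preJ n P α ι n' F hϖ hB hA hun).toFrames.gl
              ((preJ n P α ι n' F hϖ hB hA hun).toFrames.pl ⟨i, m, σ⟩) from hl)).symm
            show ((F i).mat σ (X.1 (ι i))).trace / 2 = X.2 / 2 + lamOf _ _ _
            rw [lamOf_apply]
            show ((F i).mat σ (X.1 (ι i))).trace / 2 = X.2 / 2 +
              (((F i).mat σ (X.1 (ι i))).trace - X.2) / 2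
            ring
          · rw [wtJ, if_neg hl]
            refine Eq.trans ?_ (if_neg (show ¬ (preJ n P α ι n' F hϖ hB hA hun).toFrames.gl
              ((preJ n P α ι n' F hϖ hB hA hun).toFrames.pl ⟨i, m, σ⟩) from hl)).symm
            show (F i).mat σ (X.1 (ι i)) 0 0 = (preJ n P α ι n' F hϖ hB hA hun).A' ⟨i, σ⟩ ⟨X, hX⟩ 0 0
            rw [(preJ n P α ι n' F hϖ hB hA hun).A'_neg ⟨i, σ⟩ hl]
            rfl) t (by
          rcases ht with ht | ht
          · exact (preJ n P α ι n' F hϖ hB hA hun).cj_ne t ht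
          · exact ht)
      convert hbal using 2
      ext r
      simp only [Finset.mem_filter]
      rfl)
  refine Submodule.span_mono ?_ h1
  rintro M ⟨π, β, hβ, hM⟩
  exact ⟨π, β, fun a X hX u v => hβ a ⟨X, hX⟩ u v, hM⟩

end family

end Pool.Agent.Helper28.W
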