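import Pool.Agent.Helper28.W.FamJ2
import Pool.Agent.Helper7.U.Sgn

/-!
Sub-families: the sign argument.
-/

open scoped ComplexConjugate

namespace Pool.Agent.Helper28.W

open Module NumberField Matrix Pool.Agent.Helper7

set_option linter.unusedSectionVars false

section family

variable {I : Type} [Fintype I] [DecidableEq I] (n : I → ℕ)
  {κ : I → Type} [∀ i, Fintype (κ i)] [∀ i, DecidableEq (κ i)] {ϖ : ℂ}
  (P : ∀ i, PData (κ i) ϖ)
  {k : ℕ} (α : MultilinearMap ℂ (fun _ : Fin (2 * k) => HW κ n) ℂ)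
  {J : Type} [Fintype J] [DecidableEq J] (ι : J → I)
  {K : J → Type} [∀ j, Field (K j)] [∀ j, NumberField (K j)]
  (F : ∀ j, FT (P (ι j)) (K j))

/-- the normalised representation -/
noncomputable def nmJ (i : J) (σ : K i →+* ℂ) : GG κ →ₗ[ℂ] Matrix (Fin 2) (Fin 2) ℂ :=
  nrm (LinearMap.snd ℂ ((i : I) → Module.End ℂ (κ i → ℂ)) ℂ)
    (((F i).mat σ) ∘ₗ (LinearMap.proj (ι i)) ∘ₗ
      (LinearMap.fst ℂ ((i : I) → Module.End ℂ (κ i → ℂ)) ℂ))

lemma nmJ_apply (i : J) (σ : K i →+* ℂ) (X : GG κ) : nmJ P ι F i σ X = (F i).mat σ (X.1 (ι i)) -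
    ((((F i).mat σ (X.1 (ι i))).trace - X.2) / 2) • (1 : Matrix _ _ ℂ) := by
  rw [nmJ, nrm_apply, lamOf_apply]
  rfl

lemma nmJ_rat (i : J) (hl : (F i).isLeft) (X : GG κ) (hX : IsInv n P α X) (hr : IsRatl P X) :
    ∃ m : Matrix (Fin 2) (Fin 2) (K i), ∀ σ : K i →+* ℂ, nmJ P ι F i σ X = m.map σ := by
  obtain ⟨m, hm⟩ := (F i).exists_matK (X.1 (ι i)) (commT n P α ι F hX i) (hr.1 (ι i))
  obtain ⟨q, hq⟩ := hr.2
  refine ⟨m - ((m.trace - (q : K i)) / 2) • 1, fun σ => ?_⟩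
  have h1 : (F i).mat σ (X.1 (ι i)) = m.map σ := by
    ext a b
    exact hm σ a b (Or.inl hl)
  rw [nmJ_apply, h1, hq]
  ext a b
  simp only [Matrix.sub_apply, Matrix.smul_apply, Matrix.map_apply, Matrix.trace_fin_two,
    smul_eq_mul, map_sub, map_mul, map_div₀, map_add, map_ofNat, map_ratCast, Matrix.one_apply]
  congr 2
  split_ifs <;> simp

lemma nmJ_gal (i : J) (hl : (F i).isLeft) (X : GG κ) (hX : IsInv n P α X) (hr : IsRatl P X)
    (τ : ℂ ≃+* ℂ) (σ : K i →+* ℂ) :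
    (nmJ P ι F i σ X).map τ = nmJ P ι F i ((τ : ℂ →+* ℂ).comp σ) X := by
  obtain ⟨m, hm⟩ := nmJ_rat n P α ι F i hl X hX hr
  rw [hm, hm]
  ext a b
  rfl

lemma nmJ_conj (i : J) (hl : (F i).isLeft) (X : GG κ) (hX : IsInv n P α X) (hr : IsRatl P X)
    (σ : K i →+* ℂ) :
    mconj (nmJ P ι F i σ X) = nmJ P ι F i (ComplexEmbedding.conjugate σ) X := by
  obtain ⟨m, hm⟩ := nmJ_rat n P α ι F i hl X hX hr
  rw [hm, hm]
  ext a b
  rfl

/-- `Q` intertwines the normalised representations at two places. -/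
def LinkJ (i : J) (σ : K i →+* ℂ) (j : J) (τ : K j →+* ℂ) (Q : Matrix (Fin 2) (Fin 2) ℂ) : Prop :=
  ∀ X, IsInv n P α X → nmJ P ι F i σ X * Q = Q * nmJ P ι F j τ X

variable {n P α ι F} in
lemma LinkJ.symm {i j : J} {σ : K i →+* ℂ} {τ : K j →+* ℂ} {Q : Matrix (Fin 2) (Fin 2) ℂ}
    (h : LinkJ n P α ι F i σ j τ Q) (hQ : Q.det ≠ 0) : LinkJ n P α ι F j τ i σ Q⁻¹ := by
  intro X hX
  have hu : IsUnit Q.det := isUnit_iff_ne_zero.mpr hQ
  have h1 := h X hX
  calc nmJ P ι F j τ X * Q⁻¹ = Q⁻¹ * (Q * nmJ P ι F j τ X) * Q⁻¹ := by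
        rw [← mul_assoc, Matrix.nonsing_inv_mul _ hu, one_mul]
    _ = Q⁻¹ * nmJ P ι F i σ X := by
        rw [← h1, mul_assoc, mul_assoc, Matrix.mul_nonsing_inv _ hu, mul_one]

variable (hϖ : ϖ ≠ 0)
  (hB : ∀ v : Fin (2 * k) → HW κ n, (∀ r, IsRatP n P (v r)) → ∃ q : ℚ, α v = ϖ ^ k * q)
  (hA : ∀ v : Fin (2 * k) → HW κ n, (∀ r i m j, IsAlgebraic ℚ (v r i m j)) →
      IsAlgebraic ℚ (α v))

variable {n P α ι F} in
include hϖ hB in
/-- Galois conjugates of linked places are linked. -/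
lemma LinkJ.gal {i j : J} {σ : K i →+* ℂ} {τ : K j →+* ℂ} {Q : Matrix (Fin 2) (Fin 2) ℂ}
    (h : LinkJ n P α ι F i σ j τ Q) (hi : (F i).isLeft) (hj : (F j).isLeft) (g : ℂ ≃+* ℂ) :
    LinkJ n P α ι F i ((g : ℂ →+* ℂ).comp σ) j ((g : ℂ →+* ℂ).comp τ) (Q.map g) := by
  intro X hX
  have h1 := Pool.Agent.Helper7.lin_of_rat n P α hϖ hB
    ((LinearMap.mulRight ℂ (Q.map g)) ∘ₗ nmJ P ι F i ((g : ℂ →+* ℂ).comp σ) -
      (LinearMap.mulLeft ℂ (Q.map g)) ∘ₗ nmJ P ι F j ((g : ℂ →+* ℂ).comp τ))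
    (fun X hX hr => by
      show nmJ P ι F i ((g : ℂ →+* ℂ).comp σ) X * Q.map g -
        Q.map g * nmJ P ι F j ((g : ℂ →+* ℂ).comp τ) X = 0
      rw [← nmJ_gal n P α ι F i hi X hX hr, ← nmJ_gal n P α ι F j hj X hX hr, ← Matrix.map_mul,
        ← Matrix.map_mul, h X hX, sub_self]) X hX
  exact sub_eq_zero.mp h1

lemma nmJ_gram (i : J) (hl : (F i).isLeft) (X : GG κ) (hX : IsInv n P α X) (σ : K i →+* ℂ) :
    (nmJ P ι F i σ X)ᵀ * (F i).gram σ +
      (F i).gram σ * nmJ P ι F i (ComplexEmbedding.conjugate σ) X = X.2 • (F i).gram σ := by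
  have h1 := (F i).gram_inv (X.1 (ι i)) (commT n P α ι F hX i) X.2 (hX.pol (ι i)) σ
  have h2 := (F i).trcj hl (X.1 (ι i)) (commT n P α ι F hX i) X.2 (hX.pol (ι i)) σ
  rw [nmJ_apply, nmJ_apply, transpose_sub, transpose_smul, transpose_one, sub_mul, mul_sub,
    smul_mul_assoc, one_mul, mul_smul_comm, mul_one, ← h1]
  have h3 : (((F i).mat (ComplexEmbedding.conjugate σ) (X.1 (ι i))).trace - X.2) / 2 =
      -((((F i).mat σ (X.1 (ι i))).trace - X.2) / 2) := by linear_combination h2 / 2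
  rw [h3]
  module

variable {n P α ι F} in
include hϖ hB hA in
/-- A link carries one Hermitian form to a multiple of the other. -/
lemma LinkJ.gram {i j : J} {σ : K i →+* ℂ} {τ : K j →+* ℂ} {Q : Matrix (Fin 2) (Fin 2) ℂ}
    (h : LinkJ n P α ι F i σ j τ Q) (hQ : Q.det ≠ 0) (hi : (F i).isLeft) (hj : (F j).isLeft) :
    ∃ β : ℂ, Qᵀ * (F i).gram σ * mconj Q = β • (F j).gram τ := by
  have hu : IsUnit Q.det := isUnit_iff_ne_zero.mpr hQ
  have hg : IsUnit ((F j).gram τ).det := isUnit_iff_ne_zero.mpr ((F j).gram_det hj τ)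
  obtain ⟨D, hD⟩ : ∃ D, D = ((F j).gram τ)⁻¹ * (Qᵀ * (F i).gram σ * mconj Q) := ⟨_, rfl⟩
  have hD' : Qᵀ * (F i).gram σ * mconj Q = (F j).gram τ * D := by
    rw [hD, ← mul_assoc, Matrix.mul_nonsing_inv _ hg, one_mul]
  -- `D` commutes with the normalised representation at the conjugate place
  have hcomm : ∀ X, IsInv n P α X →
      nmJ P ι F j (ComplexEmbedding.conjugate τ) X * D =
      D * nmJ P ι F j (ComplexEmbedding.conjugate τ) X := by
    intro X hX
    have h1 := Pool.Agent.Helper7.lin_of_rat n P α hϖ hB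
      ((LinearMap.mulRight ℂ D) ∘ₗ nmJ P ι F j (ComplexEmbedding.conjugate τ) -
        (LinearMap.mulLeft ℂ D) ∘ₗ nmJ P ι F j (ComplexEmbedding.conjugate τ))
      (fun X hX hr => by
        show nmJ P ι F j (ComplexEmbedding.conjugate τ) X * D -
          D * nmJ P ι F j (ComplexEmbedding.conjugate τ) X = 0
        have e1 := nmJ_gram n P α ι F i hi X hX σ
        have e2 := nmJ_gram n P α ι F j hj X hX τ
        rw [← nmJ_conj n P α ι F i hi X hX hr] at e1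
        have e3 := h X hX
        have e4 := congrArg Matrix.transpose e3
        rw [transpose_mul, transpose_mul] at e4
        have e5 := congrArg mconj e3
        rw [mconj_mul, mconj_mul, nmJ_conj n P α ι F j hj X hX hr] at e5
        -- the transported form satisfies the same equation
        have e6 : (nmJ P ι F j τ X)ᵀ * ((F j).gram τ * D) +
            ((F j).gram τ * D) * nmJ P ι F j (ComplexEmbedding.conjugate τ) X =
            X.2 • ((F j).gram τ * D) := by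
          rw [← hD']
          calc (nmJ P ι F j τ X)ᵀ * (Qᵀ * (F i).gram σ * mconj Q) +
              (Qᵀ * (F i).gram σ * mconj Q) * nmJ P ι F j (ComplexEmbedding.conjugate τ) X
              = ((nmJ P ι F j τ X)ᵀ * Qᵀ) * (F i).gram σ * mconj Q +
                Qᵀ * (F i).gram σ * (mconj Q *
                  nmJ P ι F j (ComplexEmbedding.conjugate τ) X) := by
                simp only [mul_assoc]
            _ = Qᵀ * ((nmJ P ι F i σ X)ᵀ * (F i).gram σ +
                (F i).gram σ * mconj (nmJ P ι F i σ X)) * mconj Q := by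
                rw [← e4, ← e5]
                simp only [mul_assoc, mul_add, add_mul]
            _ = _ := by
                rw [e1, mul_smul_comm, smul_mul_assoc]
        have e7 : (F j).gram τ * (nmJ P ι F j (ComplexEmbedding.conjugate τ) X * D -
            D * nmJ P ι F j (ComplexEmbedding.conjugate τ) X) = 0 := by
          have e8 := congrArg (fun M => M * D) e2
          simp only [add_mul, smul_mul_assoc] at e8
          rw [mul_sub, ← mul_assoc, ← mul_assoc, sub_eq_zero]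
          rw [← e8, mul_assoc ((nmJ P ι F j τ X)ᵀ)] at e6
          exact (add_left_cancel e6).symm
        have e9 := congrArg (fun M => ((F j).gram τ)⁻¹ * M) e7
        simp only [mul_zero, ← mul_assoc, Matrix.nonsing_inv_mul _ hg, one_mul] at e9
        exact e9) X hX
    exact sub_eq_zero.mp h1
  have hsl : ∀ Z : Matrix (Fin 2) (Fin 2) ℂ, Z.trace = 0 → Z * D = D * Z := by
    intro Z hZ
    obtain ⟨X, hX, hXZ⟩ := sl_surjJ n P α ι F hϖ hB hA j hj (ComplexEmbedding.conjugate τ) Z hZ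
    have h1 := hcomm X hX
    rw [nmJ_apply, hXZ, sub_mul, mul_sub, smul_mul_assoc, one_mul, mul_smul_comm, mul_one,
      sub_left_inj] at h1
    exact h1
  obtain ⟨β, hβ⟩ := scalar_of_comm D (hsl _ tr_mE) (hsl _ tr_mF)
  exact ⟨β, by rw [hD', hβ, mul_smul_comm, mul_one]⟩

include hϖ hB hA in
/-- Separation by signs excludes links. -/
lemma unlinkedJ_of_sign
    (hsep : ∀ (i : J) (σ : K i →+* ℂ) (j : J) (τ : K j →+* ℂ), (F i).isLeft → (F j).isLeft →
      ComplexEmbedding.conjugate σ ≠ σ → (⟨j, τ⟩ : Σ i, (K i →+* ℂ)) ≠ ⟨i, σ⟩ →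
      (⟨j, τ⟩ : Σ i, (K i →+* ℂ)) ≠ conjT ⟨i, σ⟩ → ∃ g : ℂ ≃+* ℂ,
      ¬ (Aniso ((F i).gram ((g : ℂ →+* ℂ).comp σ)) ↔
        Aniso ((F j).gram ((g : ℂ →+* ℂ).comp τ)))) : UnLinkedJ n P α ι F := by
  intro i σ j τ hi hj hne Q hQ hX
  by_contra hcon
  push Not at hcon
  obtain ⟨g, hg⟩ := hsep i σ j τ hi hj hne hcon.1 hcon.2
  apply hg
  have h0 : LinkJ n P α ι F i σ j τ Q := by
    intro X hX'
    rw [nmJ_apply, nmJ_apply]
    exact hX X hX'
  have h1 := h0.gal hϖ hB hi hj g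
  have hQ1 : (Q.map g).det ≠ 0 := by
    have h2 : (Q.map g).det = g Q.det := by
      rw [Matrix.det_fin_two, Matrix.det_fin_two]
      simp
    rw [h2]
    exact (map_ne_zero g).mpr hQ
  have hQ2 : (Q.map g)⁻¹.det ≠ 0 := by
    rw [← isUnit_iff_ne_zero]
    exact Matrix.isUnit_nonsing_inv_det _ (isUnit_iff_ne_zero.mpr hQ1)
  constructor
  · intro hs
    obtain ⟨β, hβ⟩ := h1.gram hϖ hB hA hQ1 hi hj
    exact hs.of_conj hQ1 hβ
  · intro hs
    obtain ⟨β, hβ⟩ := (h1.symm hQ1).gram hϖ hB hA hQ2 hj hi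
    exact hs.of_conj hQ2 hβ

end family

end Pool.Agent.Helper28.W
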